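import Mathlib

/-!
# The lemma of the maximal rank (paper 619, (2d))

If `T₀` has the maximal rank among the maps `T₀ + t T`, then `T` maps the kernel of `T₀` into the
range of `T₀`.
-/

namespace Pool.Agent.Lib.h97s

open Module

/-- a matrix `1 + t C` is invertible for some `t ≠ 0` -/
theorem exists_det_ne_zero {k ι : Type*} [Field k] [Infinite k] [Fintype ι] [DecidableEq ι]
    (C : Matrix ι ι k) : ∃ t : k, t ≠ 0 ∧ (1 + t • C).det ≠ 0 := by
  have h1 : (-C).charpoly ≠ 0 := (Matrix.charpoly_monic _).ne_zero
  have h2 : ((-C).charpoly * Polynomial.X) ≠ 0 := mul_ne_zero h1 Polynomial.X_ne_zero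
  obtain ⟨s, hs⟩ : ∃ s : k, ((-C).charpoly * Polynomial.X).eval s ≠ 0 := by
    by_contra hcon
    push Not at hcon
    exact h2 (Polynomial.funext fun s => by rw [hcon s, Polynomial.eval_zero])
  rw [Polynomial.eval_mul, Polynomial.eval_X] at hs
  have hs1 : (-C).charpoly.eval s ≠ 0 := left_ne_zero_of_mul hs
  have hs0 : s ≠ 0 := right_ne_zero_of_mul hs
  refine ⟨s⁻¹, inv_ne_zero hs0, ?_⟩
  rw [Matrix.eval_charpoly] at hs1
  have h3 : (1 + s⁻¹ • C) = s⁻¹ • (Matrix.scalar ι s - -C) := by
    rw [sub_neg_eq_add, smul_add]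
    congr 1
    ext i j
    simp [Matrix.scalar_apply, Matrix.one_apply, Matrix.diagonal_apply, inv_mul_cancel₀ hs0]
  rw [h3, Matrix.det_smul]
  exact mul_ne_zero (pow_ne_zero _ (inv_ne_zero hs0)) hs1

/-- an endomorphism `1 + t C` is injective for some `t ≠ 0` -/
theorem exists_injective {k V : Type*} [Field k] [Infinite k] [AddCommGroup V] [Module k V]
    [FiniteDimensional k V] (C : V →ₗ[k] V) :
    ∃ t : k, t ≠ 0 ∧ Function.Injective (LinearMap.id + t • C : V →ₗ[k] V) := by
  classical
  let b := finBasis k V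
  obtain ⟨t, ht, hdet⟩ := exists_det_ne_zero (LinearMap.toMatrix b b C)
  refine ⟨t, ht, ?_⟩
  have h1 : LinearMap.toMatrix b b (LinearMap.id + t • C) = 1 + t • LinearMap.toMatrix b b C := by
    rw [map_add, map_smul, LinearMap.toMatrix_id]
  have h2 : LinearMap.det (LinearMap.id + t • C) ≠ 0 := by
    rw [← LinearMap.det_toMatrix b, h1]
    exact hdet
  have h3 : IsUnit (LinearMap.id + t • C : V →ₗ[k] V) := by
    rw [LinearMap.isUnit_iff_isUnit_det]
    exact isUnit_iff_ne_zero.2 h2
  exact ((Module.End.isUnit_iff _).1 h3).1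

/-- **the lemma of the maximal rank** -/
theorem max_rank {k E F : Type*} [Field k] [Infinite k] [AddCommGroup E] [Module k E]
    [AddCommGroup F] [Module k F] [FiniteDimensional k F] {T₀ T : E →ₗ[k] F}
    (h : ∀ t : k, finrank k (LinearMap.range (T₀ + t • T)) ≤ finrank k (LinearMap.range T₀))
    {v : E} (hv : T₀ v = 0) : T v ∈ LinearMap.range T₀ := by
  classical
  by_contra hcon
  let b := finBasis k (LinearMap.range T₀)
  have hb : ∀ i, ∃ u : E, T₀ u = (b i : F) := fun i => (b i).2
  choose u hu using hb
  -- the independent family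
  let w : Option (Fin (finrank k (LinearMap.range T₀))) → F :=
    fun o => Option.casesOn' o (T v) (fun i => (b i : F))
  have hw : LinearIndependent k w := by
    rw [linearIndependent_option']
    refine ⟨?_, ?_⟩
    · exact (b.linearIndependent.map' (LinearMap.range T₀).subtype (Submodule.ker_subtype _))
    · intro hmem
      apply hcon
      have : Submodule.span k (Set.range fun i => (b i : F)) ≤ LinearMap.range T₀ := by
        rw [Submodule.span_le]
        rintro _ ⟨i, rfl⟩
        exact (b i).2
      exact this hmem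
  obtain ⟨φ, hφ⟩ := (Fintype.linearCombination k w).exists_leftInverse_of_injective
    (by rw [LinearMap.ker_eq_bot]; exact linearIndependent_iff_injective_fintypeLinearCombination.1 hw)
  let w' : Option (Fin (finrank k (LinearMap.range T₀))) → F :=
    fun o => Option.casesOn' o 0 (fun i => T (u i))
  obtain ⟨t, ht, hinj⟩ := exists_injective (φ ∘ₗ Fintype.linearCombination k w')
  have h1 : ∀ c, Fintype.linearCombination k (fun o => w o + t • w' o) c =
      Fintype.linearCombination k w c + t • Fintype.linearCombination k w' c := by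
    intro c
    simp only [Fintype.linearCombination_apply, smul_add, Finset.sum_add_distrib, Finset.smul_sum]
    congr 1
    refine Finset.sum_congr rfl fun i _ => ?_
    rw [smul_comm]
  have h2 : LinearIndependent k (fun o => w o + t • w' o) := by
    rw [linearIndependent_iff_injective_fintypeLinearCombination]
    intro c c' hcc
    apply hinj
    have h3 := congrArg φ hcc
    have h4 : ∀ c, φ (Fintype.linearCombination k w c) = c := fun c => LinearMap.congr_fun hφ c
    rw [h1, h1, map_add, map_add, map_smul, map_smul, h4, h4] at h3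
    simpa using h3
  have h5 : ∀ o, w o + t • w' o ∈ LinearMap.range (T₀ + t • T) := by
    intro o
    cases o with
    | none =>
      refine ⟨t⁻¹ • v, ?_⟩
      simp only [LinearMap.add_apply, LinearMap.smul_apply, map_smul, hv, smul_zero, zero_add, w, w',
        Option.casesOn'_none, add_zero, smul_smul]
      rw [inv_mul_cancel₀ ht, one_smul]
    | some i =>
      refine ⟨u i, ?_⟩
      simp only [LinearMap.add_apply, LinearMap.smul_apply, w, w', Option.casesOn'_some, hu]
  let w'' : Option (Fin (finrank k (LinearMap.range T₀))) → LinearMap.range (T₀ + t • T) :=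
    fun o => ⟨_, h5 o⟩
  have h6 : LinearIndependent k w'' := by
    apply LinearIndependent.of_comp (LinearMap.range (T₀ + t • T)).subtype
    exact h2
  have h7 := h6.fintype_card_le_finrank
  rw [Fintype.card_option, Fintype.card_fin] at h7
  have h8 := h t
  omega

/-- the version for a space of linear maps -/
theorem max_rank_submodule {k E F : Type*} [Field k] [Infinite k] [AddCommGroup E] [Module k E]
    [AddCommGroup F] [Module k F] [FiniteDimensional k F] (S : Submodule k (E →ₗ[k] F)) :
    ∃ T₀ ∈ S, (∀ T ∈ S, finrank k (LinearMap.range T) ≤ finrank k (LinearMap.range T₀)) ∧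
      ∀ T ∈ S, ∀ v, T₀ v = 0 → T v ∈ LinearMap.range T₀ := by
  obtain ⟨T₀, hT₀⟩ : ∃ T₀ : S, ∀ T : S, finrank k (LinearMap.range (T : E →ₗ[k] F)) ≤
      finrank k (LinearMap.range (T₀ : E →ₗ[k] F)) := by
    have hbd : BddAbove (Set.range fun T : S => finrank k (LinearMap.range (T : E →ₗ[k] F))) := by
      refine ⟨finrank k F, ?_⟩
      rintro _ ⟨T, rfl⟩
      exact Submodule.finrank_le _
    obtain ⟨T₀, hT₀⟩ := Nat.sSup_mem (Set.range_nonempty _) hbd
    refine ⟨T₀, fun T => ?_⟩
    have h1 : (fun T : S => finrank k (LinearMap.range (T : E →ₗ[k] F))) T₀ = _ := hT₀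
    have h2 := le_csSup hbd ⟨T, rfl⟩
    simp only at h1 h2
    rw [h1]
    exact h2
  refine ⟨T₀, T₀.2, fun T hT => hT₀ ⟨T, hT⟩, fun T hT v hv => max_rank (fun t => ?_) hv⟩
  exact hT₀ ⟨_, S.add_mem T₀.2 (S.smul_mem t hT)⟩

end Pool.Agent.Lib.h97s
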